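import Pool.Agent.J4.H65.GQ.Prof
import Pool.Agent.N586.AN.Tn3
import Pool.Agent.N586.AN.Vm

set_option autoImplicit false

/-! The sums with large phases: Vinogradov's method. -/

namespace Pool.Agent.J4.H65.GQ
open Finset
open Pool.Agent.Y957.VK (TT)
open Pool.Agent.N586.RT (Adm ph shift)
open Pool.Agent.N586.AN (t_tn2 t_vm)
open Pool.Agent.H469R2.NK (e norm_e e_add conj_e e_zero)
open Pool.Agent.N193.PS (e_lip)

lemma e_eq (x : ℝ) : e x = Complex.exp (2 * Real.pi * Complex.I * ((x : ℝ) : ℂ)) := by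
  unfold e
  congr 1
  push_cast
  ring

/-- **the sums with large phases** -/
theorem es_large (D : ℝ) (hD : 1 ≤ D) : ∃ C : ℝ, 0 ≤ C ∧ ∀ (N : ℕ) (φ : ℕ → ℝ → ℝ) (z κ : ℝ), 2 ≤ N →
    Profile D φ → 1 / 2 ≤ κ → (N : ℝ) ^ κ = 6 * D * |z| →
    ‖∑ n ∈ Ioc N (2 * N), e (z * φ 0 ((n : ℝ) / N))‖ ≤ C * (N : ℝ) ^ (1 - 1 / 10 ^ 10 / (1 + κ) ^ 2 : ℝ) := by
  obtain ⟨C', hC', hT⟩ := t_tn2 t_vm (6 * D ^ 2) (by nlinarith)
  refine ⟨C' + 4, by linarith, fun N φ z κ hN hP hκ hz => ?_⟩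
  have hN1 : (1 : ℝ) ≤ N := by exact_mod_cast (by omega : 1 ≤ N)
  have hNp : (0 : ℝ) < N := by linarith
  have hD0 : 0 < D := by linarith
  obtain ⟨x, hx⟩ : ∃ x : ℝ, x = (N : ℝ) ^ (2 / 5 : ℝ) := ⟨_, rfl⟩
  have hx1 : 1 ≤ x := by
    rw [hx]
    exact Real.one_le_rpow hN1 (by norm_num)
  obtain ⟨M, hM⟩ : ∃ M : ℕ, M = ⌊x⌋₊ := ⟨_, rfl⟩
  have hM1 : 1 ≤ M := by
    rw [hM]
    exact Nat.le_floor (by simpa using hx1)
  have hM1' : (1 : ℝ) ≤ M := by exact_mod_cast hM1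
  have hMx : (M : ℝ) ≤ x := by
    rw [hM]
    exact Nat.floor_le (by linarith)
  have hMx2 : x ≤ 2 * M := by
    have : x < M + 1 := by rw [hM]; exact Nat.lt_floor_add_one x
    linarith
  have hM2 : (M : ℝ) ^ 2 ≤ (N : ℝ) ^ (4 / 5 : ℝ) := by
    calc (M : ℝ) ^ 2 ≤ x ^ 2 := pow_le_pow_left₀ (by positivity) hMx 2
      _ = (N : ℝ) ^ (4 / 5 : ℝ) := by
        rw [hx, ← Real.rpow_natCast, ← Real.rpow_mul hNp.le]
        norm_num
  obtain ⟨r, hr⟩ : ∃ r : ℕ, r = ⌈5 * κ⌉₊ + 5 := ⟨_, rfl⟩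
  have hr5 : 5 * κ + 5 ≤ (r : ℝ) := by
    rw [hr]
    push_cast
    linarith [Nat.le_ceil (5 * κ)]
  obtain ⟨η, hη⟩ : ∃ η : ℝ, η = 1 / 10 ^ 10 / (1 + κ) ^ 2 := ⟨_, rfl⟩
  rw [← hη]
  have hκ1 : 1 ≤ 1 + κ := by linarith
  have hη1 : η ≤ 1 / 10 := by
    rw [hη]
    refine le_trans (div_le_self (by norm_num) ?_) (by norm_num)
    exact one_le_pow₀ hκ1
  obtain ⟨g, hg⟩ : ∃ g : ℕ → ℂ, g = fun n : ℕ => e (z * φ 0 ((n : ℝ) / N)) := ⟨_, rfl⟩
  obtain ⟨a, ha⟩ : ∃ a : ℕ → ℕ → ℝ, a = fun (n j : ℕ) => z * (φ j ((n : ℝ) / N) / j.factorial / (N : ℝ) ^ j) := ⟨_, rfl⟩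
  have ht : ∀ n ∈ Ioc N (2 * N), 1 ≤ (n : ℝ) / N ∧ (n : ℝ) / N ≤ 2 := by
    intro n hn
    rw [mem_Ioc] at hn
    have h1 : (N : ℝ) ≤ n := by exact_mod_cast hn.1.le
    have h2 : (n : ℝ) ≤ 2 * N := by exact_mod_cast hn.2
    exact ⟨by rw [le_div_iff₀ hNp]; linarith, by rw [div_le_iff₀ hNp]; linarith⟩
  have h5 : (M : ℝ) ^ 2 / N ≤ (N : ℝ) ^ (-(1 / 5) : ℝ) := by
    rw [div_le_iff₀ hNp]
    refine hM2.trans (le_of_eq ?_)
    conv_rhs => rw [← Real.rpow_one (N : ℝ), ← Real.rpow_mul hNp.le, one_mul, ← Real.rpow_add hNp]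
    norm_num
  have h5' : (N : ℝ) ^ (-(1 / 5) : ℝ) ≤ 1 := Real.rpow_le_one_of_one_le_of_nonpos hN1 (by norm_num)
  -- the approximation
  have happ : ∀ n ∈ Ioc N (2 * N), ∀ x ∈ Icc 1 M, ∀ y ∈ Icc 1 M,
      ‖g (n + x * y) - g n * ph r (a n) ((x : ℝ) * y)‖ ≤ 2 * (N : ℝ) ^ (-(6 / 5) : ℝ) := by
    intro n hn x hx y hy
    obtain ⟨ht1, ht2⟩ := ht n hn
    have hx' : (x : ℝ) ≤ M := by exact_mod_cast (Finset.mem_Icc.1 hx).2
    have hy' : (y : ℝ) ≤ M := by exact_mod_cast (Finset.mem_Icc.1 hy).2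
    have hxy : (x : ℝ) * y ≤ (M : ℝ) ^ 2 := by
      rw [sq]
      exact mul_le_mul hx' hy' (by positivity) (by positivity)
    obtain ⟨s, hs⟩ : ∃ s : ℝ, s = (x : ℝ) * y / N := ⟨_, rfl⟩
    have hs0 : 0 ≤ s := by rw [hs]; positivity
    have hs1 : s ≤ (N : ℝ) ^ (-(1 / 5) : ℝ) := by
      rw [hs]
      refine le_trans ?_ h5
      gcongr
    have h6 := taylor hP ht1 (r + 1) 0 s hs0 (by linarith)
    have h7 : ∑ j ∈ range (r + 1), φ (0 + j) ((n : ℝ) / N) / j.factorial * s ^ j =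
        φ 0 ((n : ℝ) / N) + ∑ j ∈ Icc 1 r, φ j ((n : ℝ) / N) / j.factorial * s ^ j := by
      have e1 : range (r + 1) = insert 0 (Icc 1 r) := by
        ext j; simp only [mem_range, mem_insert, mem_Icc]; omega
      rw [e1, sum_insert (by simp)]
      simp
    rw [h7, zero_add, div_self (by exact_mod_cast (r + 1).factorial_ne_zero), mul_one] at h6
    have h8 : g (n + x * y) = e (z * φ 0 ((n : ℝ) / N + s)) := by
      rw [hg]
      simp only
      congr 2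
      rw [hs]
      push_cast
      field_simp
    have h9 : g n * ph r (a n) ((x : ℝ) * y) = e (z * (φ 0 ((n : ℝ) / N) + ∑ j ∈ Icc 1 r, φ j ((n : ℝ) / N) / j.factorial * s ^ j)) := by
      rw [mul_add, e_add, hg]
      simp only
      congr 1
      unfold ph
      rw [e_eq, mul_sum]
      congr 3
      refine sum_congr rfl fun j _ => ?_
      rw [ha, hs]
      simp only
      rw [div_pow]
      ring
    rw [h8, h9]
    refine (e_lip _ _).trans ?_
    rw [← mul_sub, abs_mul]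
    have h10 : s ^ (r + 1) ≤ (N : ℝ) ^ (-(κ + 6 / 5)) := by
      calc s ^ (r + 1) ≤ ((N : ℝ) ^ (-(1 / 5) : ℝ)) ^ (r + 1) := pow_le_pow_left₀ hs0 hs1 _
        _ = (N : ℝ) ^ (-(1 / 5) * ((r : ℝ) + 1)) := by
          rw [← Real.rpow_natCast, ← Real.rpow_mul hNp.le]
          push_cast
          ring_nf
        _ ≤ (N : ℝ) ^ (-(κ + 6 / 5)) :=
          Real.rpow_le_rpow_of_exponent_le hN1 (by linarith)
    calc 7 * (|z| * |φ 0 ((n : ℝ) / N + s) - (φ 0 ((n : ℝ) / N) + ∑ j ∈ Icc 1 r, φ j ((n : ℝ) / N) / j.factorial * s ^ j)|) ≤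
        7 * (|z| * (D * s ^ (r + 1))) := by gcongr
      _ ≤ 7 * (|z| * (D * (N : ℝ) ^ (-(κ + 6 / 5)))) := by gcongr
      _ = 7 / 6 * ((N : ℝ) ^ κ * (N : ℝ) ^ (-(κ + 6 / 5))) := by rw [hz]; ring
      _ = 7 / 6 * (N : ℝ) ^ (-(6 / 5) : ℝ) := by
          rw [← Real.rpow_add hNp]
          congr 2
          ring
      _ ≤ 2 * (N : ℝ) ^ (-(6 / 5) : ℝ) := by
          apply mul_le_mul_of_nonneg_right (by norm_num) (by positivity)
  have hmain := shift g (fun n => by rw [hg]; exact (norm_e _).le) N (2 * N) M r a (2 * (N : ℝ) ^ (-(6 / 5) : ℝ)) (by positivity)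
    (by omega) le_rfl hM1 happ
  -- the first term
  have hTn : ∀ n ∈ Ioc N (2 * N), ‖TT r M (a n)‖ ≤ C' * (M : ℝ) ^ 2 * (N : ℝ) ^ (-η) := by
    intro n hn
    obtain ⟨ht1, ht2⟩ := ht n hn
    have hadm : Adm (6 * D ^ 2) N κ r (a n) := by
      intro j hj
      rw [mem_Icc] at hj
      have hj0 : (0 : ℝ) < j := by exact_mod_cast (by omega : 0 < j)
      have hf0 : (0 : ℝ) < j.factorial := by exact_mod_cast j.factorial_pos
      have e1 : |a n j| = |z| * (|φ j ((n : ℝ) / N)| / j.factorial / (N : ℝ) ^ j) := by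
        rw [ha]
        simp only
        rw [abs_mul, abs_div, abs_div, abs_of_pos hf0, abs_of_pos (by positivity : (0 : ℝ) < (N : ℝ) ^ j)]
      have h1 := hP.low j hj.1 _ ⟨ht1, ht2⟩
      have h2 := hP.up j _ ⟨ht1, ht2.trans (by norm_num)⟩
      rw [e1, hz]
      constructor
      · calc 6 * D * |z| / (6 * D ^ 2 * (j : ℝ) ^ 2 * (2 * (N : ℝ)) ^ j) =
            |z| * ((j.factorial : ℝ) / (D * (j : ℝ) ^ 2 * 2 ^ j) / j.factorial / (N : ℝ) ^ j) := by
              rw [mul_pow]; field_simp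
          _ ≤ _ := by gcongr
      · calc |z| * (|φ j ((n : ℝ) / N)| / j.factorial / (N : ℝ) ^ j) ≤ |z| * (D * j.factorial / j.factorial / (N : ℝ) ^ j) := by
              gcongr
          _ = 6 * D * |z| / (6 * (N : ℝ) ^ j) := by field_simp
    have h3 := hT N M κ (2 / 5) (a n) hN hκ hM1 (by norm_num) le_rfl (by linarith) (by rw [← hx]; exact hMx2)
      (by rw [← hx]; exact hMx) (by rw [← hr]; exact hadm)
    rw [← hr, ← hη] at h3
    exact h3
  have hsum : ∑ n ∈ Ioc N (2 * N), ‖TT r M (a n)‖ ≤ (N : ℝ) * (C' * (M : ℝ) ^ 2 * (N : ℝ) ^ (-η)) := by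
    refine (Finset.sum_le_sum hTn).trans ?_
    rw [Finset.sum_const, Nat.card_Ioc, nsmul_eq_mul]
    refine mul_le_mul_of_nonneg_right ?_ (by positivity)
    exact_mod_cast (by omega : 2 * N - N ≤ N)
  have hpow : (N : ℝ) ^ (1 - η) = N * (N : ℝ) ^ (-η) := by
    rw [sub_eq_add_neg, Real.rpow_add hNp, Real.rpow_one]
  have t1 : 1 / (M : ℝ) ^ 2 * ∑ n ∈ Ioc N (2 * N), ‖TT r M (a n)‖ ≤ C' * (N : ℝ) ^ (1 - η) := by
    calc 1 / (M : ℝ) ^ 2 * ∑ n ∈ Ioc N (2 * N), ‖TT r M (a n)‖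
        ≤ 1 / (M : ℝ) ^ 2 * ((N : ℝ) * (C' * (M : ℝ) ^ 2 * (N : ℝ) ^ (-η))) :=
          mul_le_mul_of_nonneg_left hsum (by positivity)
      _ = C' * (N : ℝ) ^ (1 - η) := by
        rw [hpow]
        field_simp
  -- the second term
  have t2 : 2 * (M : ℝ) ^ 2 ≤ 2 * (N : ℝ) ^ (1 - η) := by
    refine mul_le_mul_of_nonneg_left (hM2.trans ?_) (by norm_num)
    exact Real.rpow_le_rpow_of_exponent_le hN1 (by linarith)
  -- the third term
  have t3 : (N : ℝ) * (2 * (N : ℝ) ^ (-(6 / 5) : ℝ)) ≤ 2 * (N : ℝ) ^ (1 - η) := by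
    have h6 : (N : ℝ) * (N : ℝ) ^ (-(6 / 5) : ℝ) ≤ (N : ℝ) ^ (1 - η) := by
      nth_rewrite 1 [← Real.rpow_one (N : ℝ)]
      rw [← Real.rpow_add hNp]
      exact Real.rpow_le_rpow_of_exponent_le hN1 (by linarith)
    linarith
  rw [hg] at hmain
  calc ‖∑ n ∈ Ioc N (2 * N), e (z * φ 0 ((n : ℝ) / N))‖
      ≤ C' * (N : ℝ) ^ (1 - η) + 2 * (N : ℝ) ^ (1 - η) + 2 * (N : ℝ) ^ (1 - η) :=
        hmain.trans (add_le_add (add_le_add t1 t2) t3)
    _ = (C' + 4) * (N : ℝ) ^ (1 - η) := by ring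

/-- both ranges -/
theorem es_all (D : ℝ) (hD : 1 ≤ D) (k : ℕ) : ∃ C₁ : ℝ, 1 ≤ C₁ ∧ ∀ (L : ℝ), C₁ ≤ L → ∀ (N : ℕ) (φ : ℕ → ℝ → ℝ) (z : ℝ),
    Profile D φ → C₁ * (L ^ 2 * Real.log L) ≤ Real.log N ^ 3 → L ^ (k + 1) ≤ |z| → |z| ≤ Real.exp (2 * L) →
    ‖∑ n ∈ Ioc N (2 * N), e (z * φ 0 ((n : ℝ) / N))‖ ≤ N / L ^ k := by
  obtain ⟨C, hC, hl⟩ := es_large D hD
  obtain ⟨B, hB⟩ : ∃ B : ℝ, B = 10 ^ 24 * ((k : ℝ) + 1) ^ 2 := ⟨_, rfl⟩
  refine ⟨max (6 * D + C + 5) 0 + B, ?_, ?_⟩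
  · have : (0 : ℝ) ≤ k := Nat.cast_nonneg _
    have := le_max_right (6 * D + C + 5) 0
    have h1 : (1 : ℝ) ≤ ((k : ℝ) + 1) ^ 2 := one_le_pow₀ (by linarith)
    rw [hB]
    linarith
  intro L hL N φ z hP hN hz1 hz2
  have hk0 : (0 : ℝ) ≤ k := Nat.cast_nonneg _
  have hk1 : (k : ℝ) + 1 ≤ ((k : ℝ) + 1) ^ 2 := by nlinarith
  have hB0 : 10 ^ 24 ≤ B := by rw [hB]; nlinarith
  have hm := le_max_left (6 * D + C + 5) 0
  have hm0 := le_max_right (6 * D + C + 5) 0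
  obtain ⟨m, hmd⟩ : ∃ m, m = max (6 * D + C + 5) 0 := ⟨_, rfl⟩
  rw [← hmd] at hL hN hm hm0
  have hLB : B ≤ L := by linarith
  have hLD : 6 * D + C + 5 ≤ L := by linarith
  have hL1 : 1 ≤ L := by linarith
  have hL0 : 0 < L := by linarith
  have hLL : 1 ≤ Real.log L := by
    rw [Real.le_log_iff_exp_le hL0]
    have := Real.exp_one_lt_d9
    linarith
  have hNlog : B * (L ^ 2 * Real.log L) ≤ Real.log N ^ 3 := by
    refine le_trans ?_ hN
    apply mul_le_mul_of_nonneg_right (by linarith) (by positivity)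
  have hlN0 : 0 ≤ Real.log N := Real.log_natCast_nonneg _
  have hlN1 : 1 < Real.log N := by
    by_contra hcon
    push Not at hcon
    have e1 : Real.log N ^ 3 ≤ 1 := pow_le_one₀ hlN0 hcon
    have e2 : 1 ≤ L ^ 2 * Real.log L := by
      have : 1 ≤ L ^ 2 := one_le_pow₀ hL1
      nlinarith
    nlinarith
  have hN2 : 2 ≤ N := by
    by_contra hcon
    have : N = 0 ∨ N = 1 := by omega
    rcases this with h | h
    · rw [h] at hlN1; norm_num at hlN1
    · rw [h] at hlN1; norm_num at hlN1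
  have hNp : (0 : ℝ) < N := by exact_mod_cast (by omega : 0 < N)
  have hN1 : (1 : ℝ) ≤ N := by exact_mod_cast (by omega : 1 ≤ N)
  have hLk : 1 ≤ L ^ (k + 1) := one_le_pow₀ hL1
  have hz0 : 0 < |z| := by linarith
  have hz : z ≠ 0 := abs_pos.1 hz0
  have hD0 : 0 < D := by linarith
  rcases le_or_gt (6 * D * |z|) ((N : ℝ) ^ (1 / 2 : ℝ)) with hs | hs
  · refine (es_small hD hP N hN2 z hz hs).trans ?_
    rw [div_le_div_iff₀ hz0 (by positivity)]
    have e1 : 5 * D * L ^ k ≤ |z| := by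
      calc 5 * D * L ^ k ≤ L * L ^ k := mul_le_mul_of_nonneg_right (by linarith) (by positivity)
        _ = L ^ (k + 1) := by rw [pow_succ']
        _ ≤ |z| := hz1
    calc 5 * D * N * L ^ k = N * (5 * D * L ^ k) := by ring
      _ ≤ N * |z| := mul_le_mul_of_nonneg_left e1 hNp.le
  · obtain ⟨κ, hκ⟩ : ∃ κ : ℝ, κ = Real.log (6 * D * |z|) / Real.log N := ⟨_, rfl⟩
    have hlNp : 0 < Real.log N := by linarith
    have h6 : 0 < 6 * D * |z| := by positivity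
    have hNκ : (N : ℝ) ^ κ = 6 * D * |z| := by
      rw [Real.rpow_def_of_pos hNp, hκ, mul_div_cancel₀ _ hlNp.ne', Real.exp_log h6]
    have hκ2 : 1 / 2 ≤ κ := by
      rw [hκ, le_div_iff₀ hlNp]
      have := Real.log_le_log (by positivity) hs.le
      rw [Real.log_rpow hNp] at this
      exact this
    refine (hl N φ z κ hN2 hP hκ2 hNκ).trans ?_
    have hκ3 : κ ≤ 3 * L / Real.log N := by
      rw [hκ]
      apply div_le_div_of_nonneg_right _ hlNp.le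
      have e1 : 6 * D * |z| ≤ L * Real.exp (2 * L) := by
        apply mul_le_mul (by linarith) hz2 hz0.le hL0.le
      have e2 := Real.log_le_log h6 e1
      rw [Real.log_mul hL0.ne' (Real.exp_pos _).ne', Real.log_exp] at e2
      have e3 := Real.log_le_sub_one_of_pos hL0
      linarith
    -- the exponent
    have hexp : (k + 1 : ℝ) * Real.log L ≤ 1 / 10 ^ 10 / (1 + κ) ^ 2 * Real.log N := by
      rw [div_mul_eq_mul_div, le_div_iff₀ (by positivity)]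
      have hκ0 : 0 ≤ κ := by linarith
      have e0 : 0 < Real.log L := by linarith
      rcases le_or_gt (Real.log N) L with h | h
      · have e1 : 1 + κ ≤ 4 * L / Real.log N := by
          have : 1 ≤ L / Real.log N := by rw [one_le_div hlNp]; exact h
          have e2 : 4 * L / Real.log N = L / Real.log N + 3 * L / Real.log N := by ring
          rw [e2]
          linarith
        have e2 : (1 + κ) ^ 2 ≤ 16 * L ^ 2 / Real.log N ^ 2 := by
          calc (1 + κ) ^ 2 ≤ (4 * L / Real.log N) ^ 2 := pow_le_pow_left₀ (by linarith) e1 2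
            _ = _ := by rw [div_pow]; ring
        calc (k + 1 : ℝ) * Real.log L * (1 + κ) ^ 2 ≤ (k + 1 : ℝ) * Real.log L * (16 * L ^ 2 / Real.log N ^ 2) := by
              gcongr
          _ = 16 * (k + 1) * (L ^ 2 * Real.log L) / Real.log N ^ 2 := by ring
          _ ≤ 1 / 10 ^ 10 * Real.log N := by
              rw [div_le_iff₀ (by positivity)]
              have e3 : 16 * ((k : ℝ) + 1) * (L ^ 2 * Real.log L) ≤ 1 / 10 ^ 10 * (B * (L ^ 2 * Real.log L)) := by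
                rw [← mul_assoc (1 / 10 ^ 10 : ℝ) B]
                apply mul_le_mul_of_nonneg_right _ (by positivity)
                rw [hB]
                linarith
              calc 16 * ((k : ℝ) + 1) * (L ^ 2 * Real.log L) ≤ 1 / 10 ^ 10 * (B * (L ^ 2 * Real.log L)) := e3
                _ ≤ 1 / 10 ^ 10 * Real.log N ^ 3 := by
                    apply mul_le_mul_of_nonneg_left hNlog (by norm_num)
                _ = _ := by ring
      · have e1 : 1 + κ ≤ 4 := by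
          have : 3 * L / Real.log N ≤ 3 := by
            rw [div_le_iff₀ hlNp]
            linarith
          linarith
        have e2 : (1 + κ) ^ 2 ≤ 16 := by
          calc (1 + κ) ^ 2 ≤ 4 ^ 2 := pow_le_pow_left₀ (by linarith) e1 2
            _ = 16 := by norm_num
        have e3 : Real.log L ≤ 2 * √L := by
          have h1 := Real.log_le_sub_one_of_pos (Real.sqrt_pos.2 hL0)
          rw [Real.log_sqrt hL0.le] at h1
          linarith
        -- `16 (k + 1) log L ≤ 10 ^ (-10) L`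
        have e4 : 16 * (k + 1 : ℝ) * Real.log L ≤ 1 / 10 ^ 10 * L := by
          have h1 : 10 ^ 12 * ((k : ℝ) + 1) ≤ √L := by
            apply Real.le_sqrt_of_sq_le
            have : (10 ^ 12 * ((k : ℝ) + 1)) ^ 2 = B := by rw [hB]; ring
            rw [this]
            exact hLB
          have h2 : 0 ≤ √L := Real.sqrt_nonneg _
          have h3 : 16 * (k + 1 : ℝ) * Real.log L ≤ 16 * (k + 1 : ℝ) * (2 * √L) :=
            mul_le_mul_of_nonneg_left e3 (by positivity)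
          have h4 : 32 * ((k : ℝ) + 1) ≤ 1 / 10 ^ 10 * √L := by linarith
          have h5 : 32 * ((k : ℝ) + 1) * √L ≤ 1 / 10 ^ 10 * √L * √L := mul_le_mul_of_nonneg_right h4 h2
          have h6 : √L * √L = L := Real.mul_self_sqrt hL0.le
          calc 16 * (k + 1 : ℝ) * Real.log L ≤ 16 * (k + 1 : ℝ) * (2 * √L) := h3
            _ = 32 * ((k : ℝ) + 1) * √L := by ring
            _ ≤ 1 / 10 ^ 10 * √L * √L := h5
            _ = 1 / 10 ^ 10 * L := by rw [mul_assoc, h6]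
        calc (k + 1 : ℝ) * Real.log L * (1 + κ) ^ 2 ≤ (k + 1 : ℝ) * Real.log L * 16 := by gcongr
          _ = 16 * (k + 1 : ℝ) * Real.log L := by ring
          _ ≤ 1 / 10 ^ 10 * L := e4
          _ ≤ 1 / 10 ^ 10 * Real.log N := by
              apply mul_le_mul_of_nonneg_left h.le (by norm_num)
    have h8 : (N : ℝ) ^ (1 - 1 / 10 ^ 10 / (1 + κ) ^ 2 : ℝ) ≤ N / L ^ (k + 1) := by
      rw [sub_eq_add_neg, Real.rpow_add hNp, Real.rpow_one, div_eq_mul_inv]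
      apply mul_le_mul_of_nonneg_left _ hNp.le
      rw [Real.rpow_neg hNp.le]
      apply inv_anti₀ (by positivity)
      rw [Real.rpow_def_of_pos hNp, ← Real.exp_log (by positivity : 0 < L ^ (k + 1))]
      apply Real.exp_le_exp.2
      rw [Real.log_pow]
      push_cast
      rw [mul_comm (Real.log (N : ℝ))]
      exact hexp
    calc C * (N : ℝ) ^ (1 - 1 / 10 ^ 10 / (1 + κ) ^ 2 : ℝ) ≤ L * (N / L ^ (k + 1)) :=
          mul_le_mul (by linarith) h8 (by positivity) hL0.le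
      _ = N / L ^ k := by rw [pow_succ]; field_simp

end Pool.Agent.J4.H65.GQ
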