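import Pool.Agent.J4.H65.GQ.Big
import Pool.Agent.J4.H66.RP.Law

set_option autoImplicit false

/-! The law of the randomly rounded values of a profile. -/

namespace Pool.Agent.J4.H65.GQ
open Finset Filter
open Pool.Agent.H469R2.NK (e norm_e e_add conj_e e_zero)
open Pool.Agent.H807R2.Dav (ee norm_ee ee_add)
open Pool.Agent.N469.SM (FL)
open Pool.Agent.J4.H66.RP (pr Yv rnd rnd_sum char_eq pr_nonneg pr_sum pr_two log_small log_large)

/-- the values -/
noncomputable def fv (A : ℝ) (φ : ℕ → ℝ → ℝ) (N : ℕ) (k : ℕ) : ℝ := A * φ 0 (((N + 1 + k : ℕ) : ℝ) / N)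

lemma sum_fv (A : ℝ) (φ : ℕ → ℝ → ℝ) (N : ℕ) (w : ℝ) :
    ∑ k ∈ range N, e (w * fv A φ N k) = ∑ n ∈ Ioc N (2 * N), e (w * A * φ 0 ((n : ℝ) / N)) := by
  have e2 : Ioc N (2 * N) = Ico (N + 1) (N + 1 + N) := by
    ext n; simp only [mem_Ioc, mem_Ico]; omega
  rw [e2, sum_Ico_eq_sum_range]
  have e3 : N + 1 + N - (N + 1) = N := by omega
  rw [e3]
  refine sum_congr rfl fun k _ => ?_
  unfold fv
  rw [mul_assoc]

/-- few frequencies near the integers -/
lemma card_near (M : ℕ) (hM : 1 ≤ M) (ρ : ℝ) (hρ : 0 ≤ ρ) :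
    (((range M).filter fun t : ℕ => (t : ℝ) / M < ρ ∨ 1 - (t : ℝ) / M < ρ).card : ℝ) ≤ 2 * (M * ρ + 2) := by
  have hM0 : (0 : ℝ) < M := by exact_mod_cast hM
  obtain ⟨R, hR⟩ : ∃ R : ℕ, R = ⌊(M : ℝ) * ρ⌋₊ + 1 := ⟨_, rfl⟩
  have hR1 : (M : ℝ) * ρ < R := by rw [hR]; push_cast; exact Nat.lt_floor_add_one _
  have hR2 : (R : ℝ) ≤ M * ρ + 1 := by
    rw [hR]; push_cast
    have := Nat.floor_le (by positivity : 0 ≤ (M : ℝ) * ρ)
    linarith
  have hsub : (range M).filter (fun t : ℕ => (t : ℝ) / M < ρ ∨ 1 - (t : ℝ) / M < ρ) ⊆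
      range R ∪ (range R).image (fun s => M - s) := by
    intro t ht
    rw [mem_filter, mem_range] at ht
    obtain ⟨htM, ht⟩ := ht
    rw [mem_union, mem_range, mem_image]
    have htM' : (t : ℝ) < M := by exact_mod_cast htM
    rcases ht with h | h
    · left
      rw [div_lt_iff₀ hM0] at h
      have : (t : ℝ) < R := by linarith
      exact_mod_cast this
    · right
      refine ⟨M - t, ?_, by omega⟩
      rw [mem_range]
      have e1 : ((M - t : ℕ) : ℝ) = M - t := by rw [Nat.cast_sub htM.le]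
      have e2 : ((M - t : ℕ) : ℝ) < R := by
        rw [e1]
        have : 1 - (t : ℝ) / M = (M - t) / M := by field_simp
        rw [this, div_lt_iff₀ hM0] at h
        linarith
      exact_mod_cast e2
  have hc : ((range M).filter fun t : ℕ => (t : ℝ) / M < ρ ∨ 1 - (t : ℝ) / M < ρ).card ≤ R + R := by
    refine (card_le_card hsub).trans ((card_union_le _ _).trans ?_)
    rw [card_range]
    exact Nat.add_le_add_left (card_image_le.trans (by rw [card_range])) _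
  have hc' : (((range M).filter fun t : ℕ => (t : ℝ) / M < ρ ∨ 1 - (t : ℝ) / M < ρ).card : ℝ) ≤ R + R := by
    exact_mod_cast hc
  linarith

/-- The characteristic function of a randomly rounded value is large only near zero. -/
theorem law (D : ℝ) (hD : 1 ≤ D) (V : ℕ) : ∃ C : ℕ, ∃ C₂ : ℝ, 1 ≤ C₂ ∧ ∀ X : ℕ, C₂ ≤ X → ∀ A : ℝ, 3 * D * A ≤ X → X ≤ 4 * D * A →
    ∀ N : ℕ, C₂ * (Real.log X ^ 2 * Real.log (Real.log X)) ≤ Real.log N ^ 3 → ∀ φ : ℕ → ℝ → ℝ, Profile D φ → 1 ≤ N →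
    ∀ j : ℤ, FL X (2 * X) C V (range N ×ˢ range 2) (pr (fv A φ N) N) (Yv (fv A φ N) j) := by
  obtain ⟨k, hk⟩ : ∃ k : ℕ, k = 4 * V + 4 := ⟨_, rfl⟩
  obtain ⟨C₁, hC₁, hes⟩ := es_all D hD k
  obtain ⟨X₁, hX₁⟩ := eventually_atTop.1 ((log_large (max (max 65536 (32 * D)) C₁)).and (log_small (3 * V + 5) 1 one_pos))
  refine ⟨k + 3, max C₁ X₁, le_max_of_le_left hC₁, fun X hX A hA1 hA2 N hN φ hP hN1 j => ?_⟩
  have hXX₁ : X₁ ≤ X := by exact_mod_cast (le_max_right _ _).trans hX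
  obtain ⟨h1, h2⟩ := hX₁ X hXX₁
  obtain ⟨L, hL⟩ : ∃ L, L = Real.log X := ⟨_, rfl⟩
  rw [← hL] at h1 h2 hN
  rw [Real.rpow_one] at h2
  have hLa : 65536 ≤ L := ((le_max_left _ _).trans (le_max_left _ _)).trans h1
  have hLb : 32 * D ≤ L := ((le_max_right _ _).trans (le_max_left _ _)).trans h1
  have hLc : C₁ ≤ L := (le_max_right _ _).trans h1
  have hL1 : 1 ≤ L := by linarith
  have hL0 : 0 < L := by linarith
  have hD0 : 0 < D := by linarith
  have hX1 : (1 : ℝ) ≤ X := (one_le_pow₀ hL1).trans h2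
  have hX0 : (0 : ℝ) < X := by linarith
  have hA0 : 0 < A := by
    by_contra hcon
    push Not at hcon
    have := mul_nonpos_of_nonneg_of_nonpos (by positivity : 0 ≤ 4 * D) hcon
    linarith
  have hLL : 0 ≤ Real.log L := Real.log_nonneg hL1
  have hN3 : C₁ * (L ^ 2 * Real.log L) ≤ Real.log N ^ 3 := by
    refine le_trans ?_ hN
    apply mul_le_mul_of_nonneg_right (le_max_left _ _) (by positivity)
  have hNp : (0 : ℝ) < N := by exact_mod_cast hN1
  -- the parameters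
  obtain ⟨Q₀, hQ₀⟩ : ∃ Q₀ : ℕ, Q₀ = ⌈L ^ V⌉₊ := ⟨_, rfl⟩
  have hQ₀a : L ^ V ≤ Q₀ := by rw [hQ₀]; exact Nat.le_ceil _
  have hLV1 : 1 ≤ L ^ V := one_le_pow₀ hL1
  have hQ₀b : (Q₀ : ℝ) ≤ L ^ (V + 1) := by
    have e1 : (Q₀ : ℝ) < L ^ V + 1 := by rw [hQ₀]; exact Nat.ceil_lt_add_one (by positivity)
    rw [pow_succ]
    nlinarith
  have hQ₀0 : (0 : ℝ) < Q₀ := by linarith
  have hQ₀1 : 1 ≤ Q₀ := by exact_mod_cast hQ₀0
  have hQ₀3 : (Q₀ : ℝ) ^ 3 ≤ L ^ (3 * V + 3) := by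
    calc (Q₀ : ℝ) ^ 3 ≤ (L ^ (V + 1)) ^ 3 := pow_le_pow_left₀ hQ₀0.le hQ₀b 3
      _ = _ := by rw [← pow_mul]; congr 1; ring
  obtain ⟨ρ, hρ⟩ : ∃ ρ : ℝ, ρ = 4 * D * L ^ (k + 1) / X := ⟨_, rfl⟩
  have hρ0 : 0 ≤ ρ := by rw [hρ]; positivity
  have hM0 : (0 : ℝ) < ((2 * X : ℕ) : ℝ) := by push_cast; linarith
  refine ⟨fun ω _ => pr_nonneg _ _ _, (pr_sum _ _ hN1).le,
    (range (2 * X)).filter (fun t : ℕ => (t : ℝ) / ((2 * X : ℕ) : ℝ) < ρ ∨ 1 - (t : ℝ) / ((2 * X : ℕ) : ℝ) < ρ), ?_, ?_⟩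
  · refine (card_near (2 * X) (by exact_mod_cast hM0) ρ hρ0).trans ?_
    rw [← hL]
    have e1 : ((2 * X : ℕ) : ℝ) * ρ = 8 * D * L ^ (k + 1) := by
      rw [hρ]; push_cast; field_simp; ring
    rw [e1]
    have e2 : 1 ≤ L ^ (k + 1) := one_le_pow₀ hL1
    calc 2 * (8 * D * L ^ (k + 1) + 2) ≤ 2 * (8 * D * L ^ (k + 1) + 2 * L ^ (k + 1)) := by linarith
      _ ≤ (32 * D) * L ^ (k + 1) := by nlinarith
      _ ≤ L * L ^ (k + 1) := mul_le_mul_of_nonneg_right hLb (by positivity)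
      _ = L ^ (k + 2) := by rw [← pow_succ']
      _ ≤ L ^ (k + 3) := pow_le_pow_right₀ hL1 (by omega)
  · intro t ht htT
    rw [char_eq, norm_mul, norm_e, one_mul, norm_mul, ← hL]
    obtain ⟨θ, hθ⟩ : ∃ θ : ℝ, θ = (t : ℝ) / ((2 * X : ℕ) : ℝ) := ⟨_, rfl⟩
    rw [mem_filter, not_and, ← hθ] at htT
    have htT' := htT ht
    push Not at htT'
    obtain ⟨hθa, hθb⟩ := htT'
    rw [← hθ]
    have hθ0 : 0 ≤ θ := by rw [hθ]; positivity
    have hθ1 : θ ≤ 1 := by
      rw [hθ, div_le_one hM0]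
      exact_mod_cast (mem_range.1 ht).le
    have hE : ∀ m : ℤ, |m| < (32768 * Q₀ ^ 3 : ℕ) →
        ‖∑ n ∈ range N, e ((θ + m) * fv A φ N n)‖ ≤ N / L ^ k := by
      intro m hm
      rw [sum_fv]
      have hlow : ρ ≤ |θ + m| := by
        rcases le_or_gt 0 m with h | h
        · have : (0 : ℝ) ≤ m := by exact_mod_cast h
          rw [abs_of_nonneg (by linarith)]
          linarith
        · have : (m : ℝ) ≤ -1 := by exact_mod_cast (by omega : m ≤ -1)
          rw [abs_of_nonpos (by linarith)]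
          linarith
      refine hes L hLc N φ _ hP hN3 ?_ ?_
      · rw [abs_mul, abs_of_pos hA0]
        calc L ^ (k + 1) = (4 * D * L ^ (k + 1) / X) * (X / (4 * D)) := by field_simp
          _ ≤ |θ + m| * A := by
            rw [← hρ]
            apply mul_le_mul hlow _ (by positivity) (abs_nonneg _)
            rw [div_le_iff₀ (by positivity)]
            linarith
      · rw [abs_mul, abs_of_pos hA0]
        have e1 : |(m : ℝ)| ≤ 32768 * (Q₀ : ℝ) ^ 3 := by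
          have : |(m : ℝ)| < ((32768 * Q₀ ^ 3 : ℕ) : ℝ) := by exact_mod_cast hm
          push_cast at this
          exact this.le
        have e2 : |θ + m| ≤ L ^ (3 * V + 5) := by
          calc |θ + m| ≤ |θ| + |(m : ℝ)| := abs_add_le _ _
            _ ≤ 1 + 32768 * (Q₀ : ℝ) ^ 3 := by
                rw [abs_of_nonneg hθ0]
                linarith
            _ ≤ 1 + 32768 * L ^ (3 * V + 3) := by linarith
            _ ≤ L ^ (3 * V + 4) := by
                have : 1 ≤ L ^ (3 * V + 3) := one_le_pow₀ hL1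
                rw [pow_succ L (3 * V + 3)]
                nlinarith
            _ ≤ L ^ (3 * V + 5) := pow_le_pow_right₀ hL1 (by omega)
        have e3 : A ≤ X := by nlinarith
        have e4 : Real.exp (2 * L) = X * X := by
          rw [two_mul, Real.exp_add, hL, Real.exp_log hX0]
        rw [e4]
        exact mul_le_mul (e2.trans h2) e3 hA0.le hX0.le
    have h6 := rnd_sum (range N) (fv A φ N) Q₀ hQ₀1 θ (by rw [abs_of_nonneg hθ0]; exact hθ1) (N / L ^ k) hE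
    rw [card_range] at h6
    have h7 : 32768 * (Q₀ : ℝ) ^ 3 * (N / L ^ k) ≤ N / (2 * L ^ V) := by
      rw [mul_div_assoc', div_le_div_iff₀ (by positivity) (by positivity)]
      have e1 : 65536 * (Q₀ : ℝ) ^ 3 * L ^ V ≤ L ^ k := by
        calc 65536 * (Q₀ : ℝ) ^ 3 * L ^ V ≤ L * L ^ (3 * V + 3) * L ^ V := by gcongr
          _ = L ^ k := by rw [hk, ← pow_succ', ← pow_add]; congr 1; ring
      calc 32768 * (Q₀ : ℝ) ^ 3 * N * (2 * L ^ V) = N * (65536 * (Q₀ : ℝ) ^ 3 * L ^ V) := by ring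
        _ ≤ N * L ^ k := mul_le_mul_of_nonneg_left e1 hNp.le
    have h8 : (N : ℝ) / (2 * Q₀) ≤ N / (2 * L ^ V) := by
      apply div_le_div_of_nonneg_left hNp.le (by positivity)
      linarith
    have h9 : ‖∑ n ∈ range N, rnd θ (fv A φ N n)‖ ≤ N / L ^ V := by
      refine h6.trans ?_
      have : (N : ℝ) / L ^ V = N / (2 * L ^ V) + N / (2 * L ^ V) := by
        field_simp; ring
      rw [this]
      linarith
    rw [norm_div, norm_one, Complex.norm_natCast]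
    calc 1 / (N : ℝ) * ‖∑ n ∈ range N, rnd θ (fv A φ N n)‖ ≤ 1 / (N : ℝ) * (N / L ^ V) :=
          mul_le_mul_of_nonneg_left h9 (by positivity)
      _ = 1 / L ^ V := by field_simp

/-- small values are rare -/
lemma anti {D : ℝ} (hD : 1 ≤ D) {φ : ℕ → ℝ → ℝ} (hP : Profile D φ) (A τ : ℝ) (hA : 0 < A) (hτ : 0 ≤ τ) (N : ℕ) (hN : 1 ≤ N)
    (S : Finset ℕ) (hSN : S ⊆ range N) (hS : ∀ k ∈ S, |fv A φ N k| ≤ τ) : (S.card : ℝ) ≤ 4 * D * τ * N / A + 1 := by
  have hNp : (0 : ℝ) < N := by exact_mod_cast hN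
  have hD0 : 0 < D := by linarith
  rcases S.eq_empty_or_nonempty with rfl | hne
  · simp; positivity
  obtain ⟨a, ha⟩ : ∃ a, a = S.min' hne := ⟨_, rfl⟩
  obtain ⟨b, hb⟩ : ∃ b, b = S.max' hne := ⟨_, rfl⟩
  have haS : a ∈ S := by rw [ha]; exact S.min'_mem hne
  have hbS : b ∈ S := by rw [hb]; exact S.max'_mem hne
  have hsub : S ⊆ Icc a b := fun k hk => mem_Icc.2 ⟨by rw [ha]; exact S.min'_le k hk, by rw [hb]; exact S.le_max' k hk⟩
  have hab : a ≤ b := by have := mem_Icc.1 (hsub haS); omega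
  have hbN := mem_range.1 (hSN hbS)
  have hcard : (S.card : ℝ) ≤ (b : ℝ) - a + 1 := by
    have h1 := card_le_card hsub
    rw [Nat.card_Icc] at h1
    have h2 : S.card + a ≤ b + 1 := by omega
    have h3 : (S.card : ℝ) + a ≤ b + 1 := by exact_mod_cast h2
    linarith
  refine hcard.trans ?_
  rcases hab.eq_or_lt with h | h
  · rw [h]
    have : 0 ≤ 4 * D * τ * N / A := by positivity
    linarith
  · have hp1 : 1 ≤ ((N + 1 + a : ℕ) : ℝ) / N := by
      rw [le_div_iff₀ hNp]; push_cast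
      have : (0 : ℝ) ≤ a := Nat.cast_nonneg _
      linarith
    have hp2 : ((N + 1 + b : ℕ) : ℝ) / N ≤ 2 := by
      rw [div_le_iff₀ hNp]
      have : (b : ℝ) + 1 ≤ N := by exact_mod_cast hbN
      push_cast
      linarith
    have hlt : ((N + 1 + a : ℕ) : ℝ) / N < ((N + 1 + b : ℕ) : ℝ) / N := by
      apply div_lt_div_of_pos_right _ hNp
      exact_mod_cast (by omega : N + 1 + a < N + 1 + b)
    obtain ⟨ξ, hξ, h1⟩ := mvt hP 0 hp1 hlt (by linarith)
    have h2 := hP.low 1 le_rfl ξ ⟨hp1.trans hξ.1.le, hξ.2.le.trans hp2⟩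
    simp only [Nat.factorial_one, Nat.cast_one, one_pow, mul_one, pow_one] at h2
    have h3 : |fv A φ N b - fv A φ N a| = A * (|φ 1 ξ| * ((b - a) / N)) := by
      unfold fv
      rw [← mul_sub, h1, abs_mul, abs_mul, abs_of_pos hA]
      congr 2
      rw [← sub_div, abs_div, abs_of_pos hNp]
      congr 1
      have : (a : ℝ) < b := by exact_mod_cast h
      rw [abs_of_pos (by push_cast; linarith)]
      push_cast
      ring
    have h4 : |fv A φ N b - fv A φ N a| ≤ 2 * τ := by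
      refine (abs_sub _ _).trans ?_
      linarith [hS a haS, hS b hbS]
    have h5 : 0 ≤ ((b : ℝ) - a) / N := by
      have : (a : ℝ) < b := by exact_mod_cast h
      apply div_nonneg _ hNp.le
      linarith
    have h6 : A * (1 / (D * 2) * ((b - a) / N)) ≤ 2 * τ := by
      refine le_trans ?_ (h3.symm.le.trans h4)
      gcongr
    have h7 : A * (1 / (D * 2) * ((b - a) / N)) = (b - a) * (A / (2 * D * N)) := by field_simp
    rw [h7] at h6
    have h8 : (b : ℝ) - a ≤ 2 * τ / (A / (2 * D * N)) := by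
      rw [le_div_iff₀ (by positivity)]
      exact h6
    have h9 : 2 * τ / (A / (2 * D * N)) = 4 * D * τ * N / A := by field_simp; ring
    rw [h9] at h8
    linarith

end Pool.Agent.J4.H65.GQ
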