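import Pool.Agent.J4.H65.GQ.Law
import Pool.Agent.N469.SQ.Gold

set_option autoImplicit false

/-! Goldbach's conjecture near the values of profiles. -/

namespace Pool.Agent.J4.H65.GQ
open Finset Filter
open Pool.Agent.N469.SM (FL)
open Pool.Agent.J4.H66.RP (pr Yv pr_nonneg pr_sum pr_two log_small log_large)

/-- the statement for `n` -/
def GG (ε : ℝ) (n : ℕ) : Prop :=
  |(Pool.Agent.H560R3.GB.g n : ℝ) - Pool.Agent.H560R3.GB.HL n| ≤ ε * Pool.Agent.H560R3.GB.HL n ∧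
    ∃ p q : ℕ, p.Prime ∧ q.Prime ∧ p ≠ q ∧ p + q = n

open Classical in
/-- few `n` are exceptional -/
theorem main (D : ℝ) (hD : 1 ≤ D) (U W : ℕ) (ε : ℝ) (hε : 0 < ε) : ∃ C₀ : ℝ, 3 ≤ C₀ ∧ ∀ A : ℝ, C₀ ≤ A → ∀ N : ℕ,
    C₀ * (Real.log A ^ 2 * Real.log (Real.log A)) ≤ Real.log N ^ 3 → ∀ φ : ℕ → ℝ → ℝ, Profile D φ →
    (((range N).filter fun k : ℕ => ∃ m : ℤ, 0 < m ∧ Even m ∧ |(m : ℝ) - fv A φ N k| ≤ Real.log A ^ W ∧
      ¬ GG ε m.toNat).card : ℝ) ≤ N / Real.log A ^ U := by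
  obtain ⟨U', hU'⟩ : ∃ U' : ℕ, U' = U + W + 5 := ⟨_, rfl⟩
  obtain ⟨W', hW'⟩ : ∃ W' : ℕ, W' = U' + 1 := ⟨_, rfl⟩
  obtain ⟨V, hV⟩ : ∃ V : ℕ, V = U' + (2 * W' + 6) + 1 + 6 := ⟨_, rfl⟩
  obtain ⟨C, C₂, hC₂, hlaw⟩ := law D hD V
  obtain ⟨X₀, hgold⟩ := Pool.Agent.N469.SQ.fl_gold U' W' C ε hε
  obtain ⟨X₁, hX₁⟩ := eventually_atTop.1 ((log_large (max 10 (64 * D ^ 2))).and (log_small (W + 1 + (W' + 1)) 1 one_pos))
  obtain ⟨B, hB⟩ : ∃ B : ℝ, B = 8 * C₂ + 8 * ((U' : ℝ) + 2) ^ 3 + X₀ + X₁ + 4 * D + 3 := ⟨_, rfl⟩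
  have hU'0 : (0 : ℝ) ≤ U' := Nat.cast_nonneg _
  have hX₀0 : (0 : ℝ) ≤ X₀ := Nat.cast_nonneg _
  have hX₁0 : (0 : ℝ) ≤ X₁ := Nat.cast_nonneg _
  have hD0 : 0 < D := by linarith
  have hU'3 : (0 : ℝ) ≤ ((U' : ℝ) + 2) ^ 3 := by positivity
  refine ⟨Real.exp 4 + B, by rw [hB]; linarith [Real.exp_pos 4], fun A hA N hN φ hP => ?_⟩
  have hA3 : 3 ≤ A := by linarith [Real.exp_pos 4]
  have hA0 : 0 < A := by linarith
  obtain ⟨X, hX⟩ : ∃ X : ℕ, X = ⌈3 * D * A⌉₊ := ⟨_, rfl⟩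
  have hX1 : 3 * D * A ≤ X := by rw [hX]; exact Nat.le_ceil _
  have hX2 : (X : ℝ) ≤ 4 * D * A := by
    have h3 : (X : ℝ) < 3 * D * A + 1 := by rw [hX]; exact Nat.ceil_lt_add_one (by positivity)
    have h4 : 1 * 1 ≤ D * A := mul_le_mul hD (by linarith) zero_le_one hD0.le
    linarith
  have hAX : A ≤ X := by
    have h4 : 1 * A ≤ D * A := mul_le_mul_of_nonneg_right hD hA0.le
    linarith
  have hX0 : (0 : ℝ) < X := by linarith
  have hXX₁ : X₁ ≤ X := by
    have : (X₁ : ℝ) ≤ X := by linarith [Real.exp_pos 4]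
    exact_mod_cast this
  have hXX₀ : X₀ ≤ X := by
    have : (X₀ : ℝ) ≤ X := by linarith [Real.exp_pos 4]
    exact_mod_cast this
  obtain ⟨h1, h2⟩ := hX₁ X hXX₁
  obtain ⟨ℓ, hℓ⟩ : ∃ ℓ, ℓ = Real.log A := ⟨_, rfl⟩
  rw [← hℓ] at hN ⊢
  obtain ⟨L, hL⟩ : ∃ L, L = Real.log X := ⟨_, rfl⟩
  rw [← hL] at h1 h2
  rw [Real.rpow_one] at h2
  have hLa : 10 ≤ L := (le_max_left _ _).trans h1
  have hLb : 64 * D ^ 2 ≤ L := (le_max_right _ _).trans h1
  have hL1 : 1 ≤ L := by linarith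
  have hLpos : 0 < L := by linarith
  have hL0 : 0 ≤ L := hLpos.le
  have hℓ4 : 4 ≤ ℓ := by
    rw [hℓ, Real.le_log_iff_exp_le hA0]
    linarith
  have hℓ0 : 0 < ℓ := by linarith
  have hℓL : ℓ ≤ L := by rw [hℓ, hL]; exact Real.log_le_log hA0 hAX
  have hLℓ : L ≤ 2 * ℓ := by
    have e1 : (X : ℝ) ≤ A ^ 2 := by
      have h3 : 4 * D ≤ A := by linarith [Real.exp_pos 4]
      have h4 : 4 * D * A ≤ A * A := mul_le_mul_of_nonneg_right h3 hA0.le
      rw [sq]
      linarith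
    have e2 := Real.log_le_log hX0 e1
    rw [Real.log_pow, ← hL, ← hℓ] at e2
    exact_mod_cast e2
  have hlogℓ : 1 ≤ Real.log ℓ := by
    rw [Real.le_log_iff_exp_le hℓ0]
    have := Real.exp_one_lt_d9
    linarith
  have hlogL : Real.log L ≤ 2 * Real.log ℓ := by
    have e1 := Real.log_le_log hLpos hLℓ
    rw [Real.log_mul (by norm_num) hℓ0.ne'] at e1
    have e2 : Real.log 2 ≤ 1 := by
      have := Real.log_two_lt_d9
      linarith
    linarith
  have hN0 : 0 ≤ Real.log N := Real.log_natCast_nonneg _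
  have hNB : B * (ℓ ^ 2 * Real.log ℓ) ≤ Real.log N ^ 3 := by
    refine le_trans ?_ hN
    apply mul_le_mul_of_nonneg_right _ (by positivity)
    linarith [Real.exp_pos 4]
  have hNC : C₂ * (L ^ 2 * Real.log L) ≤ Real.log N ^ 3 := by
    have hlL : 0 ≤ Real.log L := Real.log_nonneg hL1
    calc C₂ * (L ^ 2 * Real.log L) ≤ C₂ * ((2 * ℓ) ^ 2 * (2 * Real.log ℓ)) := by gcongr
      _ = 8 * C₂ * (ℓ ^ 2 * Real.log ℓ) := by ring
      _ ≤ B * (ℓ ^ 2 * Real.log ℓ) := by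
          apply mul_le_mul_of_nonneg_right _ (by positivity)
          linarith
      _ ≤ _ := hNB
  have hNU : ((U' : ℝ) + 2) * Real.log L ≤ Real.log N := by
    have hlL : 0 ≤ Real.log L := Real.log_nonneg hL1
    by_contra hcon
    push Not at hcon
    have e1 : Real.log N ^ 3 < (((U' : ℝ) + 2) * Real.log L) ^ 3 := pow_lt_pow_left₀ hcon hN0 (by norm_num)
    have e2 : (((U' : ℝ) + 2) * Real.log L) ^ 3 ≤ B * (ℓ ^ 2 * Real.log ℓ) := by
      have e3 : Real.log L ≤ L - 1 := Real.log_le_sub_one_of_pos hLpos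
      have e4 : Real.log L ^ 3 ≤ 8 * (ℓ ^ 2 * Real.log ℓ) := by
        calc Real.log L ^ 3 = Real.log L ^ 2 * Real.log L := by ring
          _ ≤ (2 * ℓ) ^ 2 * (2 * Real.log ℓ) := by
              gcongr
              linarith
          _ = _ := by ring
      calc (((U' : ℝ) + 2) * Real.log L) ^ 3 = ((U' : ℝ) + 2) ^ 3 * Real.log L ^ 3 := by ring
        _ ≤ ((U' : ℝ) + 2) ^ 3 * (8 * (ℓ ^ 2 * Real.log ℓ)) := mul_le_mul_of_nonneg_left e4 hU'3
        _ = 8 * ((U' : ℝ) + 2) ^ 3 * (ℓ ^ 2 * Real.log ℓ) := by ring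
        _ ≤ B * (ℓ ^ 2 * Real.log ℓ) := by
            apply mul_le_mul_of_nonneg_right _ (by positivity)
            linarith
    linarith
  have hNp : (0 : ℝ) < N := by
    rcases Nat.eq_zero_or_pos N with h | h
    · exfalso
      rw [h] at hNU
      simp only [Nat.cast_zero, Real.log_zero] at hNU
      have h3 : 0 < Real.log L := Real.log_pos (by linarith)
      have h4 : 0 < ((U' : ℝ) + 2) * Real.log L := mul_pos (by linarith) h3
      linarith
    · exact_mod_cast h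
  have hN1 : 1 ≤ N := by exact_mod_cast hNp
  have hNL : L ^ (U' + 2) ≤ N := by
    rw [← Real.exp_log hNp, ← Real.exp_log (by positivity : 0 < L ^ (U' + 2))]
    apply Real.exp_le_exp.2
    rw [Real.log_pow]
    push_cast
    exact hNU
  have hlaw' := fun j => hlaw X (by linarith [Real.exp_pos 4]) A hX1 hX2 N (by rw [← hL]; exact hNC) φ hP hN1 j
  obtain ⟨f, hf⟩ : ∃ f : ℕ → ℝ, f = fv A φ N := ⟨_, rfl⟩
  rw [← hf] at hlaw' ⊢
  obtain ⟨τ, hτ⟩ : ∃ τ : ℝ, τ = 2 * (X / L ^ (W' + 1)) := ⟨_, rfl⟩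
  obtain ⟨J₀, hJ₀⟩ : ∃ J₀ : ℕ, J₀ = ⌈ℓ ^ W⌉₊ + 1 := ⟨_, rfl⟩
  have hℓW : 1 ≤ ℓ ^ W := one_le_pow₀ (by linarith)
  have hℓLW : ℓ ^ W ≤ L ^ W := pow_le_pow_left₀ hℓ0.le hℓL W
  have hLW : 1 ≤ L ^ W := one_le_pow₀ hL1
  have hJ₀1 : ℓ ^ W + 1 ≤ J₀ := by rw [hJ₀]; push_cast; linarith [Nat.le_ceil (ℓ ^ W)]
  have hJ₀2 : (J₀ : ℝ) ≤ L ^ W + 2 := by
    have : (⌈ℓ ^ W⌉₊ : ℝ) < ℓ ^ W + 1 := Nat.ceil_lt_add_one (by positivity)
    rw [hJ₀]; push_cast; linarith
  have hsm10 : L ^ W * 10 ≤ L ^ (W + 1) := by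
    rw [pow_succ]
    exact mul_le_mul_of_nonneg_left hLa (by positivity)
  have hsm : L ^ W + 5 ≤ L ^ (W + 1) := by linarith
  have hτX : L ^ W + 4 ≤ X / L ^ (W' + 1) := by
    rw [le_div_iff₀ (by positivity)]
    calc (L ^ W + 4) * L ^ (W' + 1) ≤ L ^ (W + 1) * L ^ (W' + 1) :=
          mul_le_mul_of_nonneg_right (by linarith) (by positivity)
      _ = L ^ (W + 1 + (W' + 1)) := (pow_add L (W + 1) (W' + 1)).symm
      _ ≤ X := h2
  have hfD : ∀ k < N, |f k| ≤ X / 3 := by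
    intro k hk
    rw [hf]
    unfold fv
    rw [abs_mul, abs_of_pos hA0]
    have e1 : 1 ≤ ((N + 1 + k : ℕ) : ℝ) / N := by
      rw [le_div_iff₀ hNp]; push_cast
      have : (0 : ℝ) ≤ k := Nat.cast_nonneg _
      linarith
    have e2 : ((N + 1 + k : ℕ) : ℝ) / N ≤ 3 := by
      rw [div_le_iff₀ hNp]
      have : (k : ℝ) + 1 ≤ N := by exact_mod_cast hk
      push_cast
      linarith
    have e3 := hP.up 0 _ ⟨e1, e2⟩
    rw [Nat.factorial_zero, Nat.cast_one, mul_one] at e3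
    calc A * |φ 0 (((N + 1 + k : ℕ) : ℝ) / N)| ≤ A * D := mul_le_mul_of_nonneg_left e3 hA0.le
      _ ≤ X / 3 := by linarith
  -- the events
  obtain ⟨E, hE⟩ : ∃ E : ℤ → ℕ × ℕ → Prop, E = fun j ω => 0 < Yv f j ω ∧ 2 ∣ Yv f j ω ∧ ¬ GG ε (Yv f j ω).toNat := ⟨_, rfl⟩
  have hYf : ∀ j : ℤ, |j| ≤ J₀ → ∀ ω ∈ range N ×ˢ range 2, |(Yv f j ω : ℝ) - f ω.1| ≤ L ^ W + 4 := by
    intro j hj ω hω
    rw [mem_product, mem_range, mem_range] at hω
    have hjr : |(j : ℝ)| ≤ J₀ := by exact_mod_cast hj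
    have e1 : (Yv f j ω : ℝ) - f ω.1 = (ω.2 - Int.fract (f ω.1)) + j := by
      unfold Yv
      rw [← Int.self_sub_floor]
      push_cast
      ring
    rw [e1]
    refine (abs_add_le _ _).trans ?_
    have e2 : |(ω.2 : ℝ) - Int.fract (f ω.1)| ≤ 1 := by
      have h0 := Int.fract_nonneg (f ω.1)
      have h1 := Int.fract_lt_one (f ω.1)
      have h2 : (ω.2 : ℝ) ≤ 1 := by exact_mod_cast (by omega : ω.2 ≤ 1)
      have h3 : (0 : ℝ) ≤ ω.2 := Nat.cast_nonneg _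
      rw [abs_le]
      constructor <;> linarith
    linarith
  have hτX2 : X / L ^ (W' + 1) ≤ X / 3 := by
    apply div_le_div_of_nonneg_left hX0.le (by norm_num)
    calc (3 : ℝ) ≤ L := by linarith
      _ = L ^ 1 := (pow_one L).symm
      _ ≤ L ^ (W' + 1) := pow_le_pow_right₀ hL1 (by omega)
  have hone : ∀ j : ℤ, |j| ≤ J₀ → ∑ ω ∈ range N ×ˢ range 2, (if E j ω then pr f N ω else 0) ≤ 1 / L ^ U' := by
    intro j hj
    have h6 := hgold X hXX₀ (2 * X) le_rfl (ℕ × ℕ) (range N ×ˢ range 2) (pr f N) (Yv f j) (by rw [← hV]; exact hlaw' j) (by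
      intro ω hω
      have e1 := hYf j hj ω hω
      have e2 := hfD ω.1 (by
        rw [mem_product, mem_range] at hω
        exact hω.1)
      have e3 : (Yv f j ω : ℝ) ≤ X := by
        have := (abs_le.1 e1).2
        have := (abs_le.1 e2).2
        linarith
      exact_mod_cast e3) (E j) (fun ω => |f ω.1| ≤ τ) (by
      intro ω hω h7 h8
      have e1 := hYf j hj ω hω
      have h7' : (1 : ℝ) ≤ Yv f j ω := by exact_mod_cast h7
      rw [← hL] at h8
      have e4 : |f ω.1| ≤ |(Yv f j ω : ℝ)| + |(Yv f j ω : ℝ) - f ω.1| := by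
        have e5 : f ω.1 = (Yv f j ω : ℝ) - ((Yv f j ω : ℝ) - f ω.1) := by ring
        calc |f ω.1| = |(Yv f j ω : ℝ) - ((Yv f j ω : ℝ) - f ω.1)| := by rw [← e5]
          _ ≤ _ := abs_sub _ _
      rw [abs_of_pos (by linarith : (0 : ℝ) < Yv f j ω)] at e4
      rw [hτ]
      linarith) ?_ (by
      intro ω _ hω
      rw [hE] at hω
      exact hω)
    · rw [← hL] at h6
      exact h6
    · -- few small values
      rw [← hL]
      have e1 : ∑ ω ∈ range N ×ˢ range 2, (if |f ω.1| ≤ τ then pr f N ω else 0) =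
          ∑ n ∈ (range N).filter (fun n => |f n| ≤ τ), 1 / (N : ℝ) := by
        rw [sum_product, sum_filter]
        refine sum_congr rfl fun n _ => ?_
        rw [sum_range_succ, sum_range_succ, sum_range_zero, zero_add]
        simp only
        by_cases h7 : |f n| ≤ τ
        · rw [if_pos h7, if_pos h7, if_pos h7]
          exact pr_two f N n
        · rw [if_neg h7, if_neg h7, if_neg h7, add_zero]
      rw [e1, sum_const, nsmul_eq_mul]
      have e2 := anti hD hP A τ hA0 (by rw [hτ]; positivity) N hN1 ((range N).filter (fun n => |f n| ≤ τ)) (filter_subset _ _)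
        (fun n hn => by rw [← hf]; exact (mem_filter.1 hn).2)
      have e3 : 4 * D * τ * N / A ≤ N * (32 * D ^ 2 / L ^ (W' + 1)) := by
        rw [hτ, div_le_iff₀ hA0]
        calc 4 * D * (2 * (X / L ^ (W' + 1))) * N = N * (8 * D / L ^ (W' + 1)) * X := by ring
          _ ≤ N * (8 * D / L ^ (W' + 1)) * (4 * D * A) := by gcongr
          _ = _ := by ring
      have e4 : 32 * D ^ 2 / L ^ (W' + 1) ≤ 1 / (2 * L ^ (U' + 1)) := by
        rw [div_le_div_iff₀ (by positivity) (by positivity)]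
        have : L ^ (W' + 1) = L * L ^ (U' + 1) := by rw [hW', pow_succ' L (U' + 1)]
        rw [this]
        have h9 : 0 < L ^ (U' + 1) := by positivity
        have h10 := mul_le_mul_of_nonneg_right hLb h9.le
        linarith
      have e5 : 1 ≤ N * (1 / (2 * L ^ (U' + 1))) := by
        rw [mul_one_div, le_div_iff₀ (by positivity)]
        have : 2 * L ^ (U' + 1) ≤ L ^ (U' + 2) := by
          rw [pow_succ L (U' + 1), mul_comm]
          exact mul_le_mul_of_nonneg_left (by linarith) (by positivity)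
        linarith
      have e6 : (((range N).filter (fun n => |f n| ≤ τ)).card : ℝ) ≤ N * (1 / L ^ (U' + 1)) := by
        calc (((range N).filter (fun n => |f n| ≤ τ)).card : ℝ) ≤ 4 * D * τ * N / A + 1 := e2
          _ ≤ N * (1 / (2 * L ^ (U' + 1))) + N * (1 / (2 * L ^ (U' + 1))) := by
              have := mul_le_mul_of_nonneg_left e4 hNp.le
              linarith
          _ = _ := by field_simp; ring
      calc (((range N).filter (fun n => |f n| ≤ τ)).card : ℝ) * (1 / N) ≤ N * (1 / L ^ (U' + 1)) * (1 / N) :=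
            mul_le_mul_of_nonneg_right e6 (by positivity)
        _ = 1 / L ^ (U' + 1) := by field_simp
  -- the union
  obtain ⟨G, hG⟩ : ∃ G, G = (range N).filter fun n : ℕ => ∃ m : ℤ, 0 < m ∧ Even m ∧ |(m : ℝ) - f n| ≤ ℓ ^ W ∧
      ¬ GG ε m.toNat := ⟨_, rfl⟩
  rw [← hG]
  have hkey : ∀ n ∈ G, 1 / (2 * (N : ℝ)) ≤ ∑ j ∈ Icc (-(J₀ : ℤ)) J₀, ∑ b ∈ range 2, (if E j (n, b) then pr f N (n, b) else 0) := by
    intro n hn
    rw [hG, mem_filter] at hn
    obtain ⟨hnN, m, hm0, hm2, hmf, hmG⟩ := hn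
    have hnn : ∀ j : ℤ, ∀ b : ℕ, 0 ≤ (if E j (n, b) then pr f N (n, b) else 0) := by
      intro j b
      split_ifs
      · exact pr_nonneg _ _ _
      · exact le_rfl
    -- the choice of the rounding
    obtain ⟨b, hb2, hb⟩ : ∃ b : ℕ, b < 2 ∧ 1 / (2 * (N : ℝ)) ≤ pr f N (n, b) := by
      have h0 := Int.fract_nonneg (f n)
      have h1 := Int.fract_lt_one (f n)
      rcases le_or_gt (Int.fract (f n)) (1 / 2) with h | h
      · refine ⟨0, by norm_num, ?_⟩
        unfold pr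
        simp only [if_true]
        rw [div_le_div_iff₀ (by positivity) hNp]
        have h3 : N * (1 / 2) ≤ N * (1 - Int.fract (f n)) := mul_le_mul_of_nonneg_left (by linarith) hNp.le
        linarith
      · refine ⟨1, by norm_num, ?_⟩
        unfold pr
        simp only [one_ne_zero, if_false]
        rw [div_le_div_iff₀ (by positivity) hNp]
        have h3 : N * (1 / 2) ≤ N * Int.fract (f n) := mul_le_mul_of_nonneg_left h.le hNp.le
        linarith
    obtain ⟨j, hj⟩ : ∃ j : ℤ, j = m - ⌊f n⌋ - b := ⟨_, rfl⟩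
    have hYm : Yv f j (n, b) = m := by unfold Yv; rw [hj]; ring
    have hjJ : |j| ≤ J₀ := by
      have e1 : |(j : ℝ)| ≤ ℓ ^ W + 1 := by
        have e2 : (j : ℝ) = ((m : ℝ) - f n) + (Int.fract (f n) - b) := by
          rw [hj, ← Int.self_sub_floor]; push_cast; ring
        rw [e2]
        refine (abs_add_le _ _).trans ?_
        have e3 : |Int.fract (f n) - (b : ℝ)| ≤ 1 := by
          have h0 := Int.fract_nonneg (f n)
          have h1 := Int.fract_lt_one (f n)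
          have h2 : (b : ℝ) ≤ 1 := by exact_mod_cast (by omega : b ≤ 1)
          have h3 : (0 : ℝ) ≤ b := Nat.cast_nonneg _
          rw [abs_le]
          constructor <;> linarith
        linarith
      have e4 : |(j : ℝ)| ≤ J₀ := e1.trans hJ₀1
      exact_mod_cast e4
    have hEj : E j (n, b) := by
      rw [hE]
      simp only
      rw [hYm]
      exact ⟨hm0, hm2.two_dvd, hmG⟩
    calc 1 / (2 * (N : ℝ)) ≤ pr f N (n, b) := hb
      _ = (if E j (n, b) then pr f N (n, b) else 0) := by rw [if_pos hEj]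
      _ ≤ ∑ b ∈ range 2, (if E j (n, b) then pr f N (n, b) else 0) :=
          single_le_sum (f := fun b => if E j (n, b) then pr f N (n, b) else 0) (fun b _ => hnn j b) (mem_range.2 hb2)
      _ ≤ _ := single_le_sum (f := fun j => ∑ b ∈ range 2, (if E j (n, b) then pr f N (n, b) else 0))
          (fun j _ => sum_nonneg fun b _ => hnn j b) (mem_Icc.2 (abs_le.1 hjJ))
  have hsum : (G.card : ℝ) * (1 / (2 * N)) ≤ (2 * J₀ + 1) * (1 / L ^ U') := by
    calc (G.card : ℝ) * (1 / (2 * N)) = ∑ _n ∈ G, 1 / (2 * (N : ℝ)) := by rw [sum_const, nsmul_eq_mul]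
      _ ≤ ∑ n ∈ G, ∑ j ∈ Icc (-(J₀ : ℤ)) J₀, ∑ b ∈ range 2, (if E j (n, b) then pr f N (n, b) else 0) := sum_le_sum hkey
      _ ≤ ∑ n ∈ range N, ∑ j ∈ Icc (-(J₀ : ℤ)) J₀, ∑ b ∈ range 2, (if E j (n, b) then pr f N (n, b) else 0) := by
          apply sum_le_sum_of_subset_of_nonneg
          · rw [hG]; exact filter_subset _ _
          · intro n _ _
            refine sum_nonneg fun j _ => sum_nonneg fun b _ => ?_
            split_ifs
            · exact pr_nonneg _ _ _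
            · exact le_rfl
      _ = ∑ j ∈ Icc (-(J₀ : ℤ)) J₀, ∑ ω ∈ range N ×ˢ range 2, (if E j ω then pr f N ω else 0) := by
          rw [sum_comm]
          refine sum_congr rfl fun j _ => ?_
          rw [sum_product]
      _ ≤ ∑ j ∈ Icc (-(J₀ : ℤ)) J₀, 1 / L ^ U' := sum_le_sum fun j hj => hone j (abs_le.2 (mem_Icc.1 hj))
      _ = (2 * J₀ + 1) * (1 / L ^ U') := by
          rw [sum_const, Int.card_Icc, nsmul_eq_mul]
          have : ((J₀ : ℤ) + 1 - -(J₀ : ℤ)).toNat = 2 * J₀ + 1 := by omega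
          rw [this]
          push_cast
          ring
  have h9 : (2 * (J₀ : ℝ) + 1) ≤ L ^ (W + 1) := by linarith
  have h11 : (G.card : ℝ) * (1 / (2 * N)) ≤ 1 / L ^ (U + 4) := by
    refine hsum.trans ?_
    calc (2 * (J₀ : ℝ) + 1) * (1 / L ^ U') ≤ L ^ (W + 1) * (1 / L ^ U') :=
          mul_le_mul_of_nonneg_right h9 (by positivity)
      _ = 1 / L ^ (U + 4) := by
          have e1 : L ^ U' = L ^ (W + 1) * L ^ (U + 4) := by rw [hU', ← pow_add]; congr 1; ring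
          have e2 : L ^ (W + 1) ≠ 0 := by positivity
          rw [e1]
          field_simp
  rw [mul_one_div, div_le_div_iff₀ (by positivity) (by positivity), one_mul] at h11
  rw [le_div_iff₀ (by positivity)]
  have h12 : (2 : ℝ) ≤ L ^ 4 := by
    calc (2 : ℝ) ≤ L := by linarith
      _ = L ^ 1 := (pow_one _).symm
      _ ≤ L ^ 4 := pow_le_pow_right₀ hL1 (by norm_num)
  have hG0 : (0 : ℝ) ≤ G.card := Nat.cast_nonneg _
  have hGU : (0 : ℝ) ≤ G.card * L ^ U := mul_nonneg hG0 (pow_nonneg hLpos.le _)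
  have h13 : (G.card : ℝ) * L ^ U * 2 ≤ 2 * N := by
    calc (G.card : ℝ) * L ^ U * 2 ≤ G.card * L ^ U * L ^ 4 := mul_le_mul_of_nonneg_left h12 hGU
      _ = G.card * L ^ (U + 4) := by rw [pow_add]; ring
      _ ≤ 2 * N := h11
  calc (G.card : ℝ) * ℓ ^ U ≤ G.card * L ^ U := by gcongr
    _ ≤ N := by linarith

end Pool.Agent.J4.H65.GQ
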