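import Pool.Agent.N586.RT.Zs
import Pool.Agent.H469R2.NK.KL
import Pool.Agent.N193.PS.Frac

set_option autoImplicit false

/-! Profiles: smooth functions on `[1, 3]` with Taylor coefficients of the right size. -/

namespace Pool.Agent.J4.H65.GQ
open Finset
open Pool.Agent.H469R2.NK (e norm_e e_add conj_e e_zero)
open Pool.Agent.N193.PS (e_lip)

/-- A profile: a smooth function `φ 0` on `[1, 3]` whose derivative of order `j` is `φ j`. The Taylor
coefficients `φ j t / j!` are at most `D` for `t` in `[1, 3]`, and those of positive order are at least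
`1 / (D j ^ 2 2 ^ j)` for `t` in `[1, 2]`, in absolute value. -/
structure Profile (D : ℝ) (φ : ℕ → ℝ → ℝ) : Prop where
  der : ∀ j : ℕ, ∀ t ∈ Set.Icc (1 : ℝ) 3, HasDerivAt (φ j) (φ (j + 1) t) t
  up : ∀ j : ℕ, ∀ t ∈ Set.Icc (1 : ℝ) 3, |φ j t| ≤ D * j.factorial
  low : ∀ j : ℕ, 1 ≤ j → ∀ t ∈ Set.Icc (1 : ℝ) 2, (j.factorial : ℝ) / (D * (j : ℝ) ^ 2 * 2 ^ j) ≤ |φ j t|

/-- Taylor's theorem -/
lemma taylor {D : ℝ} {φ : ℕ → ℝ → ℝ} (hP : Profile D φ) {t : ℝ} (ht : 1 ≤ t) (r : ℕ) :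
    ∀ i : ℕ, ∀ s : ℝ, 0 ≤ s → t + s ≤ 3 →
      |φ i (t + s) - ∑ j ∈ range r, φ (i + j) t / j.factorial * s ^ j| ≤
        D * ((i + r).factorial / r.factorial) * s ^ r := by
  induction r with
  | zero =>
      intro i s hs hts
      simp only [range_zero, sum_empty, sub_zero, add_zero, Nat.factorial_zero, Nat.cast_one, div_one, pow_zero, mul_one]
      exact hP.up i _ ⟨by linarith, hts⟩
  | succ r ih =>
      intro i s hs hts
      obtain ⟨F, hF⟩ : ∃ F : ℝ → ℝ, F = fun u => φ i (t + u) - ∑ j ∈ range (r + 1), φ (i + j) t / j.factorial * u ^ j := ⟨_, rfl⟩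
      obtain ⟨F', hF'⟩ : ∃ F' : ℝ → ℝ, F' = fun u => φ (i + 1) (t + u) - ∑ j ∈ range r, φ (i + 1 + j) t / j.factorial * u ^ j := ⟨_, rfl⟩
      have hder : ∀ u : ℝ, 0 ≤ u → u ≤ s → HasDerivAt F (F' u) u := by
        intro u hu0 hus
        have h1 : HasDerivAt (fun u => φ i (t + u)) (φ (i + 1) (t + u)) u := by
          have h2 := hP.der i (t + u) ⟨by linarith, by linarith⟩
          have h3 : HasDerivAt (fun u => t + u) 1 u := (hasDerivAt_id u).const_add t
          have h4 := HasDerivAt.comp u h2 h3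
          rw [mul_one] at h4
          exact h4
        have h2 : HasDerivAt (fun u : ℝ => ∑ j ∈ range (r + 1), φ (i + j) t / j.factorial * u ^ j)
            (∑ j ∈ range (r + 1), φ (i + j) t / j.factorial * ((j : ℝ) * u ^ (j - 1))) u := by
          refine HasDerivAt.fun_sum fun j _ => ?_
          exact (hasDerivAt_pow j u).const_mul _
        have h3 : ∑ j ∈ range (r + 1), φ (i + j) t / j.factorial * ((j : ℝ) * u ^ (j - 1)) =
            ∑ j ∈ range r, φ (i + 1 + j) t / j.factorial * u ^ j := by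
          rw [sum_range_succ']
          simp only [Nat.cast_zero, zero_mul, mul_zero, add_zero]
          refine sum_congr rfl fun j _ => ?_
          have e1 : i + (j + 1) = i + 1 + j := by ring
          rw [e1, Nat.factorial_succ, Nat.add_sub_cancel]
          have e2 : ((j.factorial : ℕ) : ℝ) ≠ 0 := by exact_mod_cast j.factorial_ne_zero
          have e3 : ((j : ℝ) + 1) ≠ 0 := by positivity
          push_cast
          field_simp
        rw [hF, hF']
        have h4 := h1.sub h2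
        rw [h3] at h4
        exact h4
      have hB : ∀ u : ℝ, HasDerivAt (fun u : ℝ => D * ((i + (r + 1)).factorial / (r + 1).factorial) * u ^ (r + 1))
          (D * ((i + 1 + r).factorial / r.factorial) * u ^ r) u := by
        intro u
        have h1 := (hasDerivAt_pow (r + 1) u).const_mul (D * ((i + (r + 1)).factorial / (r + 1).factorial) : ℝ)
        refine h1.congr_deriv ?_
        have e1 : i + (r + 1) = i + 1 + r := by ring
        rw [e1, Nat.add_sub_cancel, Nat.factorial_succ r]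
        have e2 : ((r.factorial : ℕ) : ℝ) ≠ 0 := by exact_mod_cast r.factorial_ne_zero
        have e3 : ((r : ℝ) + 1) ≠ 0 := by positivity
        push_cast
        field_simp
      have h5 := image_norm_le_of_norm_deriv_right_le_deriv_boundary (f := F) (f' := F') (a := 0) (b := s)
        (fun u hu => (hder u hu.1 hu.2).continuousAt.continuousWithinAt)
        (fun u hu => (hder u hu.1 hu.2.le).hasDerivWithinAt)
        (B := fun u : ℝ => D * ((i + (r + 1)).factorial / (r + 1).factorial) * u ^ (r + 1))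
        (B' := fun u : ℝ => D * ((i + 1 + r).factorial / r.factorial) * u ^ r)
        (by
          rw [hF]
          simp only [add_zero]
          rw [sum_range_succ']
          simp) hB
        (by
          intro u hu
          rw [Real.norm_eq_abs, hF']
          exact ih (i + 1) u hu.1 (by linarith [hu.2]))
        (⟨hs, le_rfl⟩ : s ∈ Set.Icc 0 s)
      rw [Real.norm_eq_abs, hF] at h5
      exact h5

/-- the mean value theorem -/
lemma mvt {D : ℝ} {φ : ℕ → ℝ → ℝ} (hP : Profile D φ) (j : ℕ) {a b : ℝ} (ha : 1 ≤ a) (hab : a < b) (hb : b ≤ 3) :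
    ∃ ξ ∈ Set.Ioo a b, φ j b - φ j a = φ (j + 1) ξ * (b - a) := by
  obtain ⟨ξ, hξ, h⟩ := exists_hasDerivAt_eq_slope (φ j) (φ (j + 1)) hab
    (fun t ht => (hP.der j t ⟨ha.trans ht.1, ht.2.trans hb⟩).continuousAt.continuousWithinAt)
    (fun t ht => hP.der j t ⟨ha.trans ht.1.le, ht.2.le.trans hb⟩)
  refine ⟨ξ, hξ, ?_⟩
  rw [h]
  have : b - a ≠ 0 := by linarith
  field_simp

/-- the derivatives of positive order have constant signs on `[1, 2]` -/
lemma sgn {D : ℝ} (hD : 1 ≤ D) {φ : ℕ → ℝ → ℝ} (hP : Profile D φ) (j : ℕ) (hj : 1 ≤ j) :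
    (∀ t ∈ Set.Icc (1 : ℝ) 2, 0 < φ j t) ∨ (∀ t ∈ Set.Icc (1 : ℝ) 2, φ j t < 0) := by
  have hne : ∀ t ∈ Set.Icc (1 : ℝ) 2, φ j t ≠ 0 := by
    intro t ht h0
    have h1 := hP.low j hj t ht
    rw [h0, abs_zero] at h1
    have hj' : (0 : ℝ) < j := by exact_mod_cast hj
    have : 0 < (j.factorial : ℝ) / (D * (j : ℝ) ^ 2 * 2 ^ j) := by positivity
    linarith
  have hc : ContinuousOn (φ j) (Set.Icc 1 2) := fun t ht =>
    (hP.der j t ⟨ht.1, by linarith [ht.2]⟩).continuousAt.continuousWithinAt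
  by_contra hcon
  push Not at hcon
  obtain ⟨⟨a, ha, ha0⟩, b, hb, hb0⟩ := hcon
  have hpc : IsPreconnected (Set.Icc (1 : ℝ) 2) := isPreconnected_Icc
  obtain ⟨c, hc1, hc2⟩ := hpc.intermediate_value ha hb hc (⟨ha0, hb0⟩ : (0 : ℝ) ∈ Set.Icc (φ j a) (φ j b))
  exact hne c hc1 hc2

lemma norm_conj_sum (s : Finset ℕ) (x : ℕ → ℝ) : ‖∑ n ∈ s, e (-x n)‖ = ‖∑ n ∈ s, e (x n)‖ := by
  have h : ∑ n ∈ s, e (-x n) = (starRingEnd ℂ) (∑ n ∈ s, e (x n)) := by
    rw [map_sum]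
    exact sum_congr rfl fun n _ => (conj_e (x n)).symm
  rw [h, RCLike.norm_conj]

/-- the sums with small phases -/
theorem es_small {D : ℝ} (hD : 1 ≤ D) {φ : ℕ → ℝ → ℝ} (hP : Profile D φ) (N : ℕ) (hN : 2 ≤ N) (z : ℝ) (hz : z ≠ 0)
    (h : 6 * D * |z| ≤ (N : ℝ) ^ (1 / 2 : ℝ)) :
    ‖∑ n ∈ Ioc N (2 * N), e (z * φ 0 ((n : ℝ) / N))‖ ≤ 5 * D * N / |z| := by
  have hN0 : (0 : ℝ) < N := by exact_mod_cast (by omega : 0 < N)
  have hN1 : (1 : ℝ) ≤ N := by exact_mod_cast (by omega : 1 ≤ N)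
  have hz0 : 0 < |z| := abs_pos.2 hz
  have hsq : (N : ℝ) ^ (1 / 2 : ℝ) ≤ N := by
    conv_rhs => rw [← Real.rpow_one (N : ℝ)]
    exact Real.rpow_le_rpow_of_exponent_le hN1 (by norm_num)
  have hDz : 6 * (D * |z|) ≤ N := by linarith
  have hzN : |z| ≤ N := by nlinarith
  obtain ⟨θ, hθ⟩ : ∃ θ : ℝ, θ = |z| / (2 * D * N) := ⟨_, rfl⟩
  have hθ0 : 0 < θ := by rw [hθ]; positivity
  have hθ1 : θ ≤ 1 / 2 := by
    rw [hθ, div_le_div_iff₀ (by positivity) (by norm_num)]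
    nlinarith
  -- the points
  obtain ⟨p, hp⟩ : ∃ p : ℕ → ℝ, p = fun k => ((N + 1 + k : ℕ) : ℝ) / N := ⟨_, rfl⟩
  have hp1 : ∀ k, 1 ≤ p k := by
    intro k
    rw [hp, le_div_iff₀ hN0]
    push_cast
    have : (0 : ℝ) ≤ k := Nat.cast_nonneg _
    linarith
  have hp2 : ∀ k, k + 1 ≤ N → p k ≤ 2 := by
    intro k hk
    rw [hp, div_le_iff₀ hN0]
    have : (k : ℝ) + 1 ≤ N := by exact_mod_cast hk
    push_cast
    linarith
  have hps : ∀ k, p (k + 1) - p k = 1 / N := by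
    intro k
    rw [hp]
    push_cast
    field_simp
    ring
  have hplt : ∀ k, p k < p (k + 1) := by
    intro k
    have := hps k
    have : (0 : ℝ) < 1 / N := by positivity
    linarith
  -- the signs
  obtain ⟨σ, hσ, hpos⟩ : ∃ σ : ℝ, (σ = 1 ∨ σ = -1) ∧ ∀ t ∈ Set.Icc (1 : ℝ) 2, σ * z * φ 1 t = |z| * |φ 1 t| := by
    rcases sgn hD hP 1 le_rfl with h1 | h1
    · rcases lt_or_gt_of_ne hz with h2 | h2
      · refine ⟨-1, Or.inr rfl, fun t ht => ?_⟩
        rw [abs_of_neg h2, abs_of_pos (h1 t ht)]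
        ring
      · refine ⟨1, Or.inl rfl, fun t ht => ?_⟩
        rw [abs_of_pos h2, abs_of_pos (h1 t ht)]
        ring
    · rcases lt_or_gt_of_ne hz with h2 | h2
      · refine ⟨1, Or.inl rfl, fun t ht => ?_⟩
        rw [abs_of_neg h2, abs_of_neg (h1 t ht)]
        ring
      · refine ⟨-1, Or.inr rfl, fun t ht => ?_⟩
        rw [abs_of_pos h2, abs_of_neg (h1 t ht)]
        ring
  obtain ⟨x, hx⟩ : ∃ x : ℕ → ℝ, x = fun k => σ * z * φ 0 (p k) := ⟨_, rfl⟩
  have hdiff : ∀ k, k + 2 ≤ N → ∃ ξ ∈ Set.Ioo (p k) (p (k + 1)), x (k + 1) - x k = σ * z * φ 1 ξ * (1 / N) := by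
    intro k hk
    obtain ⟨ξ, hξ, h1⟩ := mvt hP 0 (hp1 k) (hplt k) ((hp2 (k + 1) (by omega)).trans (by norm_num))
    refine ⟨ξ, hξ, ?_⟩
    rw [hx]
    simp only
    rw [← mul_sub, h1, hps]
    ring
  have h1 : ∀ k, k + 2 ≤ N → θ ≤ x (k + 1) - x k ∧ x (k + 1) - x k ≤ 1 - θ := by
    intro k hk
    obtain ⟨ξ, hξ, h2⟩ := hdiff k hk
    have hξ1 : 1 ≤ ξ := (hp1 k).trans hξ.1.le
    have hξ2 : ξ ≤ 2 := hξ.2.le.trans (hp2 (k + 1) (by omega))
    rw [h2, hpos ξ ⟨hξ1, hξ2⟩]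
    have h3 := hP.low 1 le_rfl ξ ⟨hξ1, hξ2⟩
    have h4 := hP.up 1 ξ ⟨hξ1, by linarith⟩
    simp only [Nat.factorial_one, Nat.cast_one, one_pow, mul_one, pow_one] at h3 h4
    constructor
    · rw [hθ]
      calc |z| / (2 * D * N) = |z| * (1 / (D * 2)) * (1 / N) := by field_simp
        _ ≤ |z| * |φ 1 ξ| * (1 / N) := by gcongr
    · have h5 : |z| * |φ 1 ξ| * (1 / N) ≤ 1 / 6 := by
        calc |z| * |φ 1 ξ| * (1 / N) ≤ |z| * D * (1 / N) := by gcongr
          _ ≤ 1 / 6 := by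
            rw [mul_one_div, div_le_div_iff₀ hN0 (by norm_num)]
            linarith
      linarith
  have hlast : ‖∑ n ∈ Ioc N (2 * N), e (z * φ 0 ((n : ℝ) / N))‖ = ‖∑ k ∈ range N, e (x k)‖ := by
    have e1 : ∑ n ∈ Ioc N (2 * N), e (z * φ 0 ((n : ℝ) / N)) = ∑ k ∈ range N, e (z * φ 0 (p k)) := by
      rw [hp]
      have e2 : Ioc N (2 * N) = Ico (N + 1) (N + 1 + N) := by
        ext n; simp only [mem_Ioc, mem_Ico]; omega
      rw [e2, sum_Ico_eq_sum_range]
      have e3 : N + 1 + N - (N + 1) = N := by omega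
      rw [e3]
    rw [e1, hx]
    rcases hσ with h2 | h2
    · rw [h2]
      simp only [one_mul]
    · rw [h2]
      simp only [neg_mul, one_mul]
      rw [norm_conj_sum (range N) (fun k => z * φ 0 (p k))]
  have hKL : ‖∑ k ∈ range (N - 1), e (x k)‖ ≤ 2 / θ := by
    rcases sgn hD hP 2 (by norm_num) with h2 | h2
    all_goals
      have hm : ∀ k, k + 3 ≤ N → ∃ ξ ∈ Set.Icc (1 : ℝ) 2, ∃ w : ℝ, 0 ≤ w ∧
          (x (k + 2) - x (k + 1)) - (x (k + 1) - x k) = σ * z * φ 2 ξ * w := by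
        intro k hk
        obtain ⟨ξ₁, hξ₁, h3⟩ := hdiff k (by omega)
        obtain ⟨ξ₂, hξ₂, h4⟩ := hdiff (k + 1) (by omega)
        obtain ⟨ξ, hξ, h5⟩ := mvt hP 1 ((hp1 k).trans hξ₁.1.le) (hξ₁.2.trans hξ₂.1)
          (hξ₂.2.le.trans ((hp2 (k + 2) (by omega)).trans (by norm_num)))
        refine ⟨ξ, ⟨((hp1 k).trans hξ₁.1.le).trans hξ.1.le, hξ.2.le.trans (hξ₂.2.le.trans (hp2 (k + 2) (by omega)))⟩,
          (ξ₂ - ξ₁) * (1 / N), ?_, ?_⟩
        · have : 0 ≤ ξ₂ - ξ₁ := by linarith [hξ₁.2, hξ₂.1]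
          positivity
        · rw [h3, h4, ← sub_mul, ← mul_sub, h5]
          ring
    · rcases le_or_gt 0 (σ * z) with h3 | h3
      · refine Pool.Agent.H469R2.NK.kusmin_landau_mono x (N - 1) hθ0 (fun n hn => (h1 n (by omega)).1)
          (fun n hn => (h1 n (by omega)).2) (fun n hn => ?_)
        obtain ⟨ξ, hξ, w, hw, h4⟩ := hm n (by omega)
        have := mul_nonneg (mul_nonneg h3 (h2 ξ hξ).le) hw
        linarith
      · refine Pool.Agent.H469R2.NK.kusmin_landau_anti x (N - 1) hθ0 (fun n hn => (h1 n (by omega)).1)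
          (fun n hn => (h1 n (by omega)).2) (fun n hn => ?_)
        obtain ⟨ξ, hξ, w, hw, h4⟩ := hm n (by omega)
        have := mul_nonneg (mul_nonneg (neg_pos.2 h3).le (h2 ξ hξ).le) hw
        linarith
    · rcases le_or_gt 0 (σ * z) with h3 | h3
      · refine Pool.Agent.H469R2.NK.kusmin_landau_anti x (N - 1) hθ0 (fun n hn => (h1 n (by omega)).1)
          (fun n hn => (h1 n (by omega)).2) (fun n hn => ?_)
        obtain ⟨ξ, hξ, w, hw, h4⟩ := hm n (by omega)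
        have := mul_nonneg (mul_nonneg h3 (neg_pos.2 (h2 ξ hξ)).le) hw
        linarith
      · refine Pool.Agent.H469R2.NK.kusmin_landau_mono x (N - 1) hθ0 (fun n hn => (h1 n (by omega)).1)
          (fun n hn => (h1 n (by omega)).2) (fun n hn => ?_)
        obtain ⟨ξ, hξ, w, hw, h4⟩ := hm n (by omega)
        have := mul_nonneg (mul_nonneg (neg_pos.2 h3).le (neg_pos.2 (h2 ξ hξ)).le) hw
        linarith
  rw [hlast]
  obtain ⟨N', rfl⟩ : ∃ N', N = N' + 1 := ⟨N - 1, by omega⟩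
  rw [sum_range_succ]
  rw [Nat.add_sub_cancel] at hKL
  refine (norm_add_le _ _).trans ?_
  rw [norm_e]
  have e1 : 2 / θ = 4 * D * ((N' + 1 : ℕ) : ℝ) / |z| := by
    rw [hθ]
    field_simp
    ring
  have e2 : 1 ≤ D * ((N' + 1 : ℕ) : ℝ) / |z| := by
    rw [le_div_iff₀ hz0]
    nlinarith
  rw [e1] at hKL
  have e3 : 5 * D * ((N' + 1 : ℕ) : ℝ) / |z| = 4 * D * ((N' + 1 : ℕ) : ℝ) / |z| + D * ((N' + 1 : ℕ) : ℝ) / |z| := by ring
  rw [e3]
  linarith

end Pool.Agent.J4.H65.GQ
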